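import Pool.Agent.Q28.HJ.GMain

/-!
# Sums of good forms
-/

open CategoryTheory MonoidalCategory

universe v u w

namespace Pool.Agent.Q290.HS

open Pool.Agent.Q28.HJ

variable {𝓜 : Type u} [Category.{v} 𝓜] [Preadditive 𝓜] [MonoidalCategory 𝓜]

/-- The good forms of degree `d`: those `f` for which the primitive motives of `f(x) = 0` and of
`f(x) = u ^ d` are generated by elliptic curves (`E M` means `M = h^1` of an elliptic curve). -/
def goodForms (T : JoinData.{v, u, w} 𝓜) (E : 𝓜 → Prop) (d : ℕ) : Set T.Hyp :=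
  {X | T.Smooth X ∧ T.deg X = d ∧ GenBy T.L E (T.prim X) ∧
    ∀ X', T.Cyc X X' → GenBy T.L E (T.prim X')}

/-- `d` is a good degree for the characteristic exponent `p`: the Jacobian of the Fermat curve of
degree `d` is isogenous to a product of elliptic curves, because `d ≤ 4` or `d = 6`, or because it is
supersingular, which is the case if `p ^ ν ≡ -1` modulo `d` for some `ν`. -/
def GoodDegree (p d : ℕ) : Prop := 2 ≤ d ∧ (d ≤ 4 ∨ d = 6 ∨ ∃ ν : ℕ, 0 < ν ∧ d ∣ p ^ ν + 1)

/-- `W` is a sum, in disjoint sets of variables, of good forms of a good degree `d`, or of such forms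
minus `u ^ d`, `u` a further variable. The number of summands and so the dimension of `W` is
arbitrary. -/
def IsGoodSum (T : JoinData.{v, u, w} 𝓜) (E : 𝓜 → Prop) (p : ℕ) (W : T.Hyp) : Prop :=
  ∃ d, GoodDegree p d ∧ T.SumOf (T.blocks (goodForms T E d)) W

/-- The Fermat curves `u ^ d + v ^ d = w ^ d` of good degree `d` have Jacobians isogenous to products
of elliptic curves; the motive of the points `u ^ d + v ^ d = 0` is a sum of unit motives. -/
def FermatFacts (T : JoinData.{v, u, w} 𝓜) (E : 𝓜 → Prop) (p : ℕ) : Prop :=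
  ∀ P : T.Hyp, T.Diag P → GoodDegree p (T.deg P) → GenBy T.L E (T.prim P) ∧
    ∀ P', T.Cyc P P' → GenBy T.L E (T.prim P')

variable {T : JoinData.{v, u, w} 𝓜} {E : 𝓜 → Prop} {p : ℕ}

/-- Sums of good forms: their primitive motives are generated by elliptic curves. -/
theorem good_sum (hT : T.CoreFacts) (hF : FermatFacts T E p) {W : T.Hyp}
    (h : IsGoodSum T E p W) : T.Smooth W ∧ GenBy T.L E (T.prim W) := by
  obtain ⟨d, hd, h⟩ := h
  have := JoinData.genBy_sum hT hd.1 (B := goodForms T E d) (P := E)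
    (fun X hX => ⟨hX.1, hX.2.1⟩) (fun X hX hdX => ?_) ?_ h
  · exact ⟨this.1.1, this.2.1⟩
  · obtain ⟨a, -⟩ := hT.diag_prop hX
    obtain ⟨b, c⟩ := hF X hX (by rw [hdX]; exact hd)
    exact ⟨a, hdX, b, c⟩
  · rintro X (hX | ⟨Y, hY, hYX⟩)
    · exact hX.2.2.1
    · exact hY.2.2.2 X hYX

/-- Sums of ternary cubic or of binary quartic forms are sums of good forms. -/
theorem elliptic_good (hT : T.CoreFacts) (hE : T.EllipticFacts E) {W : T.Hyp}
    (h : T.IsEllipticSum W) : IsGoodSum T E p W := by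
  have mono : ∀ {B C : Set T.Hyp}, B ⊆ C → ∀ {W : T.Hyp}, T.SumOf (T.blocks B) W →
      T.SumOf (T.blocks C) W := by
    intro B C hBC W hW
    induction hW with
    | base hX =>
      refine .base ?_
      rcases hX with hX | ⟨Y, hY, hYX⟩
      · exact Or.inl (hBC hX)
      · exact Or.inr ⟨Y, hBC hY, hYX⟩
    | join _ _ h ih₁ ih₂ => exact .join ih₁ ih₂ h
  rcases h with h | h
  · refine ⟨3, ⟨by norm_num, Or.inl (by norm_num)⟩, mono ?_ h⟩
    rintro X ⟨h1, h2, h3⟩
    refine ⟨h1, h2, hE.cubic X h1 h2 (by omega), fun X' hX' => ?_⟩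
    obtain ⟨a, b, c⟩ := hT.cyc_prop hX'
    exact hE.cubic X' a (by omega) (by omega)
  · refine ⟨4, ⟨by norm_num, Or.inl (by norm_num)⟩, mono ?_ h⟩
    rintro X ⟨h1, h2, h3⟩
    exact ⟨h1, h2, hE.points X h1 (by omega),
      fun X' hX' => hE.quartic X X' h1 h2 (by omega) hX'⟩

end Pool.Agent.Q290.HS
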