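import Pool.Agent.Q290.HS.Good

/-!
# Unramified cohomology of degree three over finite fields: definitions
-/

open CategoryTheory MonoidalCategory

universe v u w

namespace Pool.Agent.Q290.HS

open Pool.Agent.Q28.HJ

/-- The category `𝓜` of Chow motives (rational coefficients) over the algebraic closure `k` of a
finite field of characteristic `p ≥ 5`, with the hypersurfaces over `k`, and the smooth projective
varieties over the finite subfields of `k`. -/
structure UnrData (𝓜 : Type u) [Category.{v} 𝓜] extends JoinData.{v, u, w} 𝓜 where
  /-- the characteristic -/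
  p : ℕ
  /-- `M = h^1(E)` for an elliptic curve `E` over `k` -/
  Ell : 𝓜 → Prop
  /-- the motive of a smooth hypersurface -/
  mot : Hyp → 𝓜
  /-- the smooth projective varieties over finite subfields of `k` -/
  Var : Type w
  /-- the motive of the variety `X_k` over `k` -/
  motV : Var → 𝓜
  /-- `Onto Y X`: there is a surjective morphism from `Y_k` to `X_k` -/
  Onto : Var → Var → Prop
  /-- `Birat X X'`: the varieties are defined over the same finite field and birational over it -/
  Birat : Var → Var → Prop
  /-- the group `H^3_nr(X, ℚ/ℤ(2))` -/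
  H3 : Var → Type w

namespace UnrData

variable {𝓜 : Type u} [Category.{v} 𝓜] [Preadditive 𝓜] [MonoidalCategory 𝓜]
  (T : UnrData.{v, u, w} 𝓜)

/-- Known facts. `core`: sums of forms (Shioda, Katsura); `elliptic`: plane cubic curves, cubic
surfaces, quartic curves `f(x, y) = u ^ 4`; `fermat`: Fermat curves of good degree (Shioda,
Katsura); `mot`: the motive of a hypersurface is a direct sum of `M_X` and of powers of `L`; `onto`:
for a surjective morphism from `Y` to `X` the motive of `X` is a direct summand of that of `Y`;
`birat`: unramified cohomology is a birational invariant; `ctk`: `H^3_nr(X, ℚ/ℤ(2))` is finite if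
the motive of `X_k` is generated by elliptic curves (Colliot-Thélène and Kahn prove this for the
varieties with motive of abelian type for which the Tate conjecture holds; Spiess proved the Tate
conjecture for products of elliptic curves). -/
structure Facts : Prop where
  core : T.CoreFacts
  elliptic : T.EllipticFacts T.Ell
  fermat : FermatFacts T.toJoinData T.Ell T.p
  mot : ∀ X : T.Hyp, T.Smooth X → GenBy T.L (fun N => N = T.prim X) (T.mot X)
  onto : ∀ Y X : T.Var, T.Onto Y X → Nonempty (Retract (T.motV X) (T.motV Y))
  birat : ∀ X X' : T.Var, T.Birat X X' → Nonempty (T.H3 X ≃ T.H3 X')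
  ctk : ∀ X : T.Var, GenBy T.L T.Ell (T.motV X) → Finite (T.H3 X)

/-- The basic motives: `h^1` of elliptic curves, and the motives of the smooth hypersurfaces which
are sums of good forms. -/
def Basic (N : 𝓜) : Prop := T.Ell N ∨ ∃ W, IsGoodSum T.toJoinData T.Ell T.p W ∧ N = T.mot W

variable {T}

/-- motives generated by the basic ones are generated by elliptic curves -/
theorem gen_basic (hT : T.Facts) {M : 𝓜} (hM : GenBy T.L T.Basic M) : GenBy T.L T.Ell M := by
  refine hM.bind ?_
  rintro N (hN | ⟨W, hW, rfl⟩)
  · exact .of hN
  · obtain ⟨hs, h⟩ := good_sum hT.core hT.fermat hW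
    refine (hT.mot W hs).bind ?_
    rintro N rfl
    exact h

/-- main theorem -/
theorem final (hT : T.Facts) {Y X X' : T.Var} (hY : GenBy T.L T.Basic (T.motV Y))
    (hYX : T.Onto Y X) (hX : T.Birat X X') : Finite (T.H3 X') := by
  obtain ⟨R⟩ := hT.onto Y X hYX
  obtain ⟨e⟩ := hT.birat X X' hX
  have := hT.ctk X ((gen_basic hT hY).retract R)
  exact Finite.of_equiv _ e

end UnrData

end Pool.Agent.Q290.HS
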